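import Pool.Agent.U856.BM.Stm1

/-!
# Project BM, package BA: the Baire argument
-/

set_option autoImplicit false

open Set Filter Topology ComplexConjugate

namespace Pool.Agent.U928.BM.BA

open Pool.Agent.U856.BM

/-- the space of the parameters -/
abbrev Pm : Type := ℝ × ℝ × ℝ × ℝ

/-- good parameters -/
def OO : Set Pm := {p | Ok p.1 p.2.1 p.2.2.1 p.2.2.2}

lemma isOpen_OO : IsOpen OO := by
  unfold OO Ok
  simp only [ofPred_and]
  refine IsOpen.inter (isOpen_lt continuous_const (by fun_prop)) ?_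
  refine IsOpen.inter (isOpen_lt (by fun_prop) continuous_const) ?_
  refine IsOpen.inter (isOpen_lt continuous_const (by fun_prop)) ?_
  refine IsOpen.inter (isOpen_lt (by fun_prop) continuous_const) ?_
  refine IsOpen.inter (isOpen_lt continuous_const (by fun_prop)) ?_
  refine IsOpen.inter (isOpen_lt (by fun_prop) continuous_const) ?_
  refine IsOpen.inter (isOpen_lt continuous_const (by fun_prop)) ?_
  exact isOpen_lt (by fun_prop) continuous_const

lemma orb_nonneg {P : Set ℂ} {x e y f : ℂ} {t : ℝ} (h : Orb P x e t y f) :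
    0 ≤ t ∧ x ∈ interior P := by
  induction h with
  | start t ht h => exact ⟨ht, by simpa using h 0 ⟨le_refl _, ht⟩⟩
  | bounce t s u y f n h1 h2 h3 h4 h5 h6 ih => exact ⟨by linarith [ih.1], ih.2⟩

lemma norm_eq_one_of_dt {z : ℂ} (h : dt z z = 1) : ‖z‖ = 1 := by
  have h1 : ‖z‖ ^ 2 = 1 := by
    rw [Complex.sq_norm, Complex.normSq_apply]
    exact h
  have h2 := norm_nonneg z
  nlinarith

lemma dt_rf {n e : ℂ} (hn : dt n n = 1) : dt (rf n e) (rf n e) = dt e e := by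
  unfold rf
  unfold dt at *
  simp only [Complex.sub_re, Complex.sub_im, Complex.real_smul, Complex.mul_re, Complex.mul_im,
    Complex.ofReal_re, Complex.ofReal_im]
  linear_combination (4 * (n.re * e.re + n.im * e.im) ^ 2) * hn

lemma norm_es {a b α : ℝ} (ha : 0 < a) : ‖es a b α‖ = 1 := by
  apply norm_eq_one_of_dt
  unfold es
  rw [dt_rf]
  · unfold dt dd
    have h : 0 < a ^ 2 + b ^ 2 := by positivity
    have h2 : √(a ^ 2 + b ^ 2) * √(a ^ 2 + b ^ 2) = a ^ 2 + b ^ 2 := Real.mul_self_sqrt h.le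
    have h3 : √(a ^ 2 + b ^ 2) ≠ 0 := by positivity
    simp only
    field_simp
    rw [sq (√(a ^ 2 + b ^ 2)), h2]
  · unfold dt nS
    simp only [Matrix.cons_val]
    have := Real.sin_sq_add_cos_sq α
    nlinarith

lemma sin_pos_of {α : ℝ} (h1 : 0.75 < α) (h2 : α < 0.82) : 0.6 < Real.sin α ∧ 0 < Real.cos α := by
  constructor
  · have h3 : α - α ^ 3 / 6 < Real.sin α := Real.sin_gt_sub_cube (by linarith)
    have h4 : α ^ 3 < 0.5514 := by
      have : α ^ 3 < 0.82 ^ 3 := by gcongr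
      linarith
    linarith
  · apply Real.cos_pos_of_mem_Ioo
    have := Real.pi_gt_three
    constructor <;> linarith

lemma continuousAt_mk {X : Type*} [TopologicalSpace X] {f g : X → ℝ} {x : X} (hf : ContinuousAt f x)
    (hg : ContinuousAt g x) : ContinuousAt (fun p => (⟨f p, g p⟩ : ℂ)) x := by
  have h : (fun p => (⟨f p, g p⟩ : ℂ)) = fun p => (f p : ℂ) + (g p : ℂ) * Complex.I := by
    funext p
    rw [Complex.mk_eq_add_mul_I]
  rw [h]
  exact (Complex.continuous_ofReal.continuousAt.comp hf).add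
    ((Complex.continuous_ofReal.continuousAt.comp hg).mul continuousAt_const)

lemma cont_VV {p : Pm} (hp : p ∈ OO) : ContinuousAt (fun q : Pm => VV q.2.2.1 q.2.2.2) p := by
  obtain ⟨-, -, -, -, -, -, h7, h8⟩ := hp
  have hs := (sin_pos_of h7 h8).1
  unfold VV
  apply continuousAt_mk
  · apply ContinuousAt.neg
    apply ContinuousAt.div
    · fun_prop
    · exact Real.continuous_sin.continuousAt.comp (by fun_prop)
    · linarith
  · exact continuousAt_const

lemma cont_dd {p : Pm} (hp : p ∈ OO) : ContinuousAt (fun q : Pm => dd q.1 q.2.1) p := by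
  obtain ⟨h1, -, -, -, -, -, -, -⟩ := hp
  have h : 0 < p.1 ^ 2 + p.2.1 ^ 2 := by
    have : 0 < p.1 := by linarith
    positivity
  have hc : ContinuousAt (fun q : Pm => √(q.1 ^ 2 + q.2.1 ^ 2)) p :=
    Real.continuous_sqrt.continuousAt.comp (by fun_prop)
  have hne : √(p.1 ^ 2 + p.2.1 ^ 2) ≠ 0 := by positivity
  unfold dd
  exact continuousAt_mk (ContinuousAt.div (by fun_prop) hc hne) (ContinuousAt.div (by fun_prop) hc hne)

lemma cont_n3 {p : Pm} : ContinuousAt (fun q : Pm => nS q.2.2.2 3) p := by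
  have h : (fun q : Pm => nS q.2.2.2 3) = fun q : Pm => (⟨Real.sin q.2.2.2, Real.cos q.2.2.2⟩ : ℂ) := by
    funext q
    simp [nS]
  rw [h]
  exact continuousAt_mk (Real.continuous_sin.continuousAt.comp (by fun_prop))
    (Real.continuous_cos.continuousAt.comp (by fun_prop))

lemma cont_es {p : Pm} (hp : p ∈ OO) : ContinuousAt (fun q : Pm => es q.1 q.2.1 q.2.2.2) p := by
  unfold es rf dt
  have h1 := cont_dd hp
  have h2 := cont_n3 (p := p)
  have h3 : ContinuousAt (fun q : Pm => (dd q.1 q.2.1).re) p := Complex.continuous_re.continuousAt.comp h1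
  have h4 : ContinuousAt (fun q : Pm => (dd q.1 q.2.1).im) p := Complex.continuous_im.continuousAt.comp h1
  have h5 : ContinuousAt (fun q : Pm => (nS q.2.2.2 3).re) p := Complex.continuous_re.continuousAt.comp h2
  have h6 : ContinuousAt (fun q : Pm => (nS q.2.2.2 3).im) p := Complex.continuous_im.continuousAt.comp h2
  exact h1.sub (ContinuousAt.smul (continuousAt_const.mul ((h5.mul h3).add (h6.mul h4))) h2)

lemma cont_ll {p : Pm} : ContinuousAt (fun q : Pm => ll q.1 q.2.1) p := by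
  unfold ll
  exact continuousAt_const.mul (Real.continuous_sqrt.continuousAt.comp (by fun_prop))

lemma VV_mem {a b v α : ℝ} (h : Ok a b v α) (j : Fin 5) : dt (nS α j) (VV v α) ≤ oS a b v j := by
  obtain ⟨h1, h2, h3, h4, h5, h6, h7, h8⟩ := h
  obtain ⟨hs, hc⟩ := sin_pos_of h7 h8
  have hs0 : Real.sin α ≠ 0 := by linarith
  have h9 : 0 < v / Real.sin α := by
    have : 0 < v := by linarith
    have : 0 < Real.sin α := by linarith
    positivity
  have h10 : v / Real.sin α < 0.9 := by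
    rw [div_lt_iff₀ (by linarith)]
    nlinarith
  fin_cases j
  · simp [dt, nS, oS, VV]; linarith
  · simp [dt, nS, oS, VV]; linarith
  · simp [dt, nS, oS, VV]; linarith
  · simp only [dt, nS, oS, VV]
    simp
    field_simp
    linarith
  · simp [dt, nS, oS, VV]

lemma segment_mem (hSD : S_SD) {a b v α : ℝ} (h : Ok a b v α) {e : ℂ} {s0 : ℝ} (hs0 : 0 < s0)
    (hin : VV v α + s0 • e ∈ interior (Tb a b v α)) :
    ∀ r ∈ Ioc 0 s0, VV v α + r • e ∈ interior (Tb a b v α) := by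
  rintro r ⟨hr0, hr1⟩
  rw [(hSD a b v α h).1] at hin ⊢
  intro j
  have h1 := hin j
  have h2 := VV_mem h j
  have e1 : ∀ t : ℝ, dt (nS α j) (VV v α + t • e) = dt (nS α j) (VV v α) + t * dt (nS α j) e := by
    intro t
    unfold dt
    simp only [Complex.add_re, Complex.add_im, Complex.real_smul, Complex.mul_re, Complex.mul_im,
      Complex.ofReal_re, Complex.ofReal_im]
    ring
  rw [e1] at h1 ⊢
  set A := dt (nS α j) (VV v α)
  set B := dt (nS α j) e
  set c := oS a b v j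
  -- A ≤ c, A + s0 B < c
  have h3 : s0 * (A + r * B) < s0 * c := by
    have : s0 * (A + r * B) = (s0 - r) * A + r * (A + s0 * B) := by ring
    rw [this]
    have h4 : (s0 - r) * A ≤ (s0 - r) * c := mul_le_mul_of_nonneg_left h2 (by linarith)
    have h5 : r * (A + s0 * B) < r * c := mul_lt_mul_of_pos_left h1 hr0
    linarith
  exact lt_of_mul_lt_mul_left h3 hs0.le

/-- the property of the parameters -/
def PP (x e : ℂ) (φ ε : ℝ) : Set Pm := {p | p ∈ OO ∧ ∃ (s : ℝ) (y f : ℂ) (k : ℤ),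
  Sep p.1 p.2.1 p.2.2.1 p.2.2.2 s y f ∧ ‖y - x‖ < ε ∧ ‖f - e‖ < ε ∧ |s - φ - k * ll p.1 p.2.1| < ε}

lemma isOpen_PP (hSD : S_SD) (hCO : S_CO) (x e : ℂ) (φ ε : ℝ) : IsOpen (PP x e φ ε) := by
  rw [isOpen_iff_eventually]
  rintro p ⟨hp, s, y, f, k, ⟨s0, hs0, hseg, horb⟩, hy, hf, hk⟩
  have hOk : Ok p.1 p.2.1 p.2.2.1 p.2.2.2 := hp
  have hnorm : ‖es p.1 p.2.1 p.2.2.2‖ = 1 := norm_es (by linarith [hOk.1])
  obtain ⟨ht, -⟩ := orb_nonneg horb
  obtain ⟨δ, hδ, hco⟩ := hCO p.1 p.2.1 p.2.2.1 p.2.2.2 _ _ y f _ hOk hnorm horb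
    (min (ε - ‖y - x‖) (ε - ‖f - e‖)) (lt_min (by linarith) (by linarith))
  have c1 : ContinuousAt (fun q : Pm => VV q.2.2.1 q.2.2.2 + s0 • es q.1 q.2.1 q.2.2.2) p :=
    (cont_VV hp).add ((cont_es hp).const_smul s0)
  have c2 := cont_es hp
  have c3 : ContinuousAt (fun q : Pm => |s - φ - k * ll q.1 q.2.1|) p :=
    (continuousAt_const.sub (continuousAt_const.mul cont_ll)).abs
  have k1 : ContinuousAt (fun q : Pm => q.1) p := by fun_prop
  have k2 : ContinuousAt (fun q : Pm => q.2.1) p := by fun_prop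
  have k3 : ContinuousAt (fun q : Pm => q.2.2.1) p := by fun_prop
  have k4 : ContinuousAt (fun q : Pm => q.2.2.2) p := by fun_prop
  filter_upwards [isOpen_OO.mem_nhds hp, Metric.continuousAt_iff'.1 c1 δ hδ,
    Metric.continuousAt_iff'.1 c2 δ hδ, c3.eventually (gt_mem_nhds hk),
    Metric.continuousAt_iff'.1 k1 δ hδ, Metric.continuousAt_iff'.1 k2 δ hδ,
    Metric.continuousAt_iff'.1 k3 δ hδ, Metric.continuousAt_iff'.1 k4 δ hδ]
    with q hq q1 q2 q3 q4 q5 q6 q7
  have hq' : Ok q.1 q.2.1 q.2.2.1 q.2.2.2 := hq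
  obtain ⟨y', f', horb', hy', hf'⟩ := hco q.1 q.2.1 q.2.2.1 q.2.2.2 (s - s0)
    (VV q.2.2.1 q.2.2.2 + s0 • es q.1 q.2.1 q.2.2.2) (es q.1 q.2.1 q.2.2.2) hq'
    (by rwa [Real.dist_eq] at q4) (by rwa [Real.dist_eq] at q5) (by rwa [Real.dist_eq] at q6)
    (by rwa [Real.dist_eq] at q7) (by simpa using hδ) ht (by rwa [dist_eq_norm] at q1)
    (by rwa [dist_eq_norm] at q2) (norm_es (by linarith [hq'.1]))
  refine ⟨hq, s, y', f', k, ⟨s0, hs0, ?_, horb'⟩, ?_, ?_, q3⟩
  · exact segment_mem hSD hq' hs0 (orb_nonneg horb').2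
  · have h1 : ‖y' - x‖ ≤ ‖y' - y‖ + ‖y - x‖ := norm_sub_le_norm_sub_add_norm_sub _ _ _
    have h2 := lt_of_lt_of_le hy' (min_le_left _ _)
    linarith
  · have h1 : ‖f' - e‖ ≤ ‖f' - f‖ + ‖f - e‖ := norm_sub_le_norm_sub_add_norm_sub _ _ _
    have h2 := lt_of_lt_of_le hf' (min_le_right _ _)
    linarith

/-- parameters for which `x` is an interior point -/
def AA (x : ℂ) : Set Pm := {p | p ∈ OO ∧ x ∈ interior (Tb p.1 p.2.1 p.2.2.1 p.2.2.2)}

lemma dense_union (hDE : S_DE) (x e : ℂ) (he : ‖e‖ = 1) (φ ε : ℝ) (hε : 0 < ε) :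
    Dense (PP x e φ ε ∪ interior (AA x)ᶜ) := by
  rw [dense_iff_inter_open]
  rintro N hN ⟨p, hp⟩
  by_cases h : (N ∩ AA x).Nonempty
  · obtain ⟨q, hqN, hqO, hqx⟩ := h
    obtain ⟨r, hr, hball⟩ := Metric.isOpen_iff.1 hN q hqN
    obtain ⟨a', b', v', α', hOk', h1, h2, h3, h4, s, y, f, k, hS, hy, hf, hk⟩ :=
      hDE q.1 q.2.1 q.2.2.1 q.2.2.2 x e φ (min ε r) hqO hqx he (lt_min hε hr)
    refine ⟨(a', b', v', α'), hball ?_, Or.inl ⟨hOk', s, y, f, k, hS, ?_, ?_, ?_⟩⟩
    · rw [Metric.mem_ball, Prod.dist_eq, Prod.dist_eq, Prod.dist_eq]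
      simp only [Real.dist_eq]
      have hm := min_le_right ε r
      refine max_lt (lt_of_lt_of_le h1 hm) (max_lt (lt_of_lt_of_le h2 hm)
        (max_lt (lt_of_lt_of_le h3 hm) (lt_of_lt_of_le h4 hm)))
    · exact lt_of_lt_of_le hy (min_le_left _ _)
    · exact lt_of_lt_of_le hf (min_le_left _ _)
    · exact lt_of_lt_of_le hk (min_le_left _ _)
  · refine ⟨p, hp, Or.inr ?_⟩
    rw [mem_interior]
    refine ⟨N, ?_, hN, hp⟩
    intro q hq hqA
    exact h ⟨q, hq, hqA⟩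

theorem t_BA : S_BA := by
  intro hSD hCO hDE
  have hne : Nonempty {e : ℂ // ‖e‖ = 1} := ⟨⟨1, by simp⟩⟩
  set xs := TopologicalSpace.denseSeq ℂ with hxs
  set es' := TopologicalSpace.denseSeq {e : ℂ // ‖e‖ = 1} with hes'
  set φs := TopologicalSpace.denseSeq ℝ with hφs
  set U : ℕ × ℕ × ℕ × ℕ → Set Pm := fun i =>
    PP (xs i.1) (es' i.2.1 : ℂ) (φs i.2.2.1) (1 / ((i.2.2.2 : ℝ) + 1)) ∪ interior (AA (xs i.1))ᶜ with hU
  have hUo : ∀ i, IsOpen (U i) := fun i => (isOpen_PP hSD hCO _ _ _ _).union isOpen_interior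
  have hUd : ∀ i, Dense (U i) := fun i => dense_union hDE _ _ (es' i.2.1).2 _ _ (by positivity)
  have hD := dense_iInter_of_isOpen hUo hUd
  obtain ⟨p, hpO, hpU⟩ := hD.inter_open_nonempty OO isOpen_OO
    ⟨((1, 1.73, 0.105, 0.78) : Pm), by
      show Ok _ _ _ _
      unfold Ok
      norm_num⟩
  refine ⟨p.1, p.2.1, p.2.2.1, p.2.2.2, hpO, ?_⟩
  intro x e hx he φ ε hε
  obtain ⟨m, hm⟩ := exists_nat_one_div_lt (show 0 < ε / 2 by linarith)
  -- approximations
  have hopen : IsOpen (interior (Tb p.1 p.2.1 p.2.2.1 p.2.2.2) ∩ Metric.ball x (ε / 2)) :=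
    isOpen_interior.inter Metric.isOpen_ball
  obtain ⟨z, ⟨hz1, hz2⟩, i1, rfl⟩ := (TopologicalSpace.denseRange_denseSeq ℂ).inter_open_nonempty _
    hopen ⟨x, hx, Metric.mem_ball_self (by linarith)⟩
  obtain ⟨z', hz', i2, rfl⟩ := (TopologicalSpace.denseRange_denseSeq {e : ℂ // ‖e‖ = 1}).inter_open_nonempty
    (Metric.ball ⟨e, he⟩ (ε / 2)) Metric.isOpen_ball ⟨⟨e, he⟩, Metric.mem_ball_self (by linarith)⟩
  obtain ⟨z'', hz'', i3, rfl⟩ := (TopologicalSpace.denseRange_denseSeq ℝ).inter_open_nonempty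
    (Metric.ball φ (ε / 2)) Metric.isOpen_ball ⟨φ, Metric.mem_ball_self (by linarith)⟩
  have h1 := mem_iInter.1 hpU (i1, i2, i3, m)
  rcases h1 with h1 | h1
  · obtain ⟨-, s, y, f, k, hS, hy, hf, hk⟩ := h1
    refine ⟨s, y, f, k, hS, ?_, ?_, ?_⟩
    · have h2 : ‖y - x‖ ≤ ‖y - xs i1‖ + ‖xs i1 - x‖ := norm_sub_le_norm_sub_add_norm_sub _ _ _
      have h3 : ‖xs i1 - x‖ < ε / 2 := by
        rw [Metric.mem_ball, dist_eq_norm] at hz2
        exact hz2
      simp only at hy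
      linarith
    · have h2 : ‖f - e‖ ≤ ‖f - (es' i2 : ℂ)‖ + ‖(es' i2 : ℂ) - e‖ :=
        norm_sub_le_norm_sub_add_norm_sub _ _ _
      have h3 : ‖(es' i2 : ℂ) - e‖ < ε / 2 := by
        rw [Metric.mem_ball, Subtype.dist_eq, dist_eq_norm] at hz'
        exact hz'
      simp only at hf
      linarith
    · have h3 : |φs i3 - φ| < ε / 2 := by
        rw [Metric.mem_ball, Real.dist_eq] at hz''
        exact hz''
      simp only at hk
      have h4 : s - φ - k * ll p.1 p.2.1 = (s - φs i3 - k * ll p.1 p.2.1) + (φs i3 - φ) := by ring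
      rw [h4]
      refine (abs_add_le _ _).trans_lt ?_
      linarith
  · exact absurd (show p ∈ AA (xs i1) from ⟨hpO, hz1⟩) (interior_subset h1)

end Pool.Agent.U928.BM.BA
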